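import Pool.Agent.W2helper40.BH.Stm

set_option autoImplicit false

/-!
# Piece DEL of project BH
-/

namespace Pool.Agent.W2helper69.BH

open Pool.Agent.W2helper40.BH

/-- the count vector -/
def cv (s : Multiset ℕ) (x : ℕ) : ℚ := (s.count x : ℚ)

theorem cv_of_notMem {s : Multiset ℕ} {x : ℕ} (h : x ∉ s) : cv s x = 0 := by
  simp [cv, Multiset.count_eq_zero_of_notMem h]

theorem cv_nonneg (s : Multiset ℕ) (x : ℕ) : 0 ≤ cv s x := Nat.cast_nonneg _

theorem cv_pos {s : Multiset ℕ} {x : ℕ} (h : x ∈ s) : 0 < cv s x := by
  have := Multiset.count_pos.2 h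
  unfold cv
  exact_mod_cast this

/-- the restriction of a function to `N` -/
def res (N : Finset ℕ) : (ℕ → ℚ) →ₗ[ℚ] (ℕ → ℚ) where
  toFun f x := if x ∈ N then f x else 0
  map_add' f g := by
    funext x
    by_cases h : x ∈ N <;> simp [h]
  map_smul' c f := by
    funext x
    by_cases h : x ∈ N <;> simp [h]

theorem res_apply (N : Finset ℕ) (f : ℕ → ℚ) (x : ℕ) : res N f x = if x ∈ N then f x else 0 := rfl

/-- there are `d` independent equations for `X` -/
def Ind (h : ℕ) (X : Finset ℕ) (d : ℕ) : Prop :=
  ∃ (ι : Type) (_ : Fintype ι) (e : ι → ℕ → ℚ), Fintype.card ι = d ∧ (∀ i, e i ∈ Eqs h X) ∧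
    LinearIndependent ℚ e

theorem clean_ind {h : ℕ} {A : Set ℕ} {X : Finset ℕ} {d : ℕ} (hA : Clean h A)
    (hX : ∀ x ∈ X, x ∈ A) (hc : X.card ≤ V h) (hi : Ind h X d) : (h + 1) * d ≤ X.card := by
  obtain ⟨ι, _, e, rfl, he, hl⟩ := hi
  exact hA X hX hc _ (e ∘ (Fintype.equivFin ι).symm) (fun i => he _)
    (hl.comp _ (Equiv.injective _))

theorem eqs_mono {h : ℕ} {X X' : Finset ℕ} (hXX : X ⊆ X') {e : ℕ → ℚ} (he : e ∈ Eqs h X) :
    e ∈ Eqs h X' := by
  refine ⟨he.1, fun x hx => he.2.1 x (fun h => hx (hXX h)), ?_⟩
  rw [← he.2.2]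
  exact (Finset.sum_subset hXX (fun x _ hx => by rw [he.2.1 x hx, zero_mul])).symm

theorem sum_cv {s : Multiset ℕ} {X : Finset ℕ} (hs : ∀ x ∈ s, x ∈ X) :
    ∑ x ∈ X, cv s x * (x : ℚ) = (s.sum : ℚ) := by
  have h1 := Finset.sum_multiset_count_of_subset s X (fun x hx => hs x (Multiset.mem_toFinset.1 hx))
  rw [h1]
  push_cast
  refine Finset.sum_congr rfl fun x _ => ?_
  simp [cv]

theorem eqs_sub {h : ℕ} {X : Finset ℕ} {s t : Multiset ℕ} (hs : Multiset.card s ≤ h + 1)
    (ht : Multiset.card t ≤ h + 1) (hsum : s.sum = t.sum) (hsX : ∀ x ∈ s, x ∈ X)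
    (htX : ∀ x ∈ t, x ∈ X) : cv s - cv t ∈ Eqs h X := by
  refine ⟨fun x => ⟨(s.count x : ℤ) - t.count x, by simp [cv], ?_⟩, fun x hx => ?_, ?_⟩
  · have h1 := (Multiset.count_le_card x s).trans hs
    have h2 := (Multiset.count_le_card x t).trans ht
    rw [abs_le]
    constructor <;> omega
  · rw [Pi.sub_apply, cv_of_notMem fun h => hx (hsX x h), cv_of_notMem fun h => hx (htX x h),
      sub_zero]
  · simp only [Pi.sub_apply, sub_mul, Finset.sum_sub_distrib]
    rw [sum_cv hsX, sum_cv htX, hsum, sub_self]

theorem ind_step {h : ℕ} {X X' N : Finset ℕ} {d : ℕ} (hi : Ind h X d) (hXX : X ⊆ X')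
    (hN : ∀ x ∈ N, x ∉ X) {κ : Type} [Fintype κ] (g : κ → ℕ → ℚ) (hg : ∀ j, g j ∈ Eqs h X')
    (hl : LinearIndependent ℚ (fun j => res N (g j))) : Ind h X' (d + Fintype.card κ) := by
  classical
  obtain ⟨ι, _, e, rfl, he, hle⟩ := hi
  refine ⟨ι ⊕ κ, inferInstance, Sum.elim e g, by rw [Fintype.card_sum], ?_, ?_⟩
  · rintro (i | j)
    · exact eqs_mono hXX (he i)
    · exact hg j
  · rw [Fintype.linearIndependent_iff] at hle hl ⊢
    intro c hc
    rw [Fintype.sum_sum_type] at hc
    simp only [Sum.elim_inl, Sum.elim_inr] at hc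
    have h1 : ∀ i, res N (e i) = 0 := by
      intro i
      funext x
      rw [res_apply]
      split_ifs with hx
      · exact (he i).2.1 x (hN x hx)
      · rfl
    have h2 := congrArg (res N) hc
    rw [map_add, map_sum, map_sum, map_zero] at h2
    simp only [map_smul, h1, smul_zero, Finset.sum_const_zero, zero_add] at h2
    have h3 := hl (fun j => c (Sum.inr j)) h2
    simp only [h3, zero_smul, Finset.sum_const_zero, add_zero] at hc
    have h4 := hle (fun i => c (Sum.inl i)) hc
    rintro (i | j)
    · exact h4 i
    · exact h3 j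

theorem fam {N : Finset ℕ} (K : Finset (Multiset ℕ)) (t : Multiset ℕ)
    (hK : ∀ s ∈ K, ∃ x ∈ N, x ∈ s ∧ x ∉ t ∧ ∀ s' ∈ K, s' ≠ s → x ∉ s') :
    LinearIndependent ℚ (fun s : K => res N (cv s.1 - cv t)) := by
  classical
  rw [Fintype.linearIndependent_iff]
  intro c hc s
  obtain ⟨x, hxN, hxs, hxt, hx⟩ := hK s.1 s.2
  have h1 := congrFun hc x
  rw [Finset.sum_apply, Finset.sum_eq_single s] at h1
  · simp only [Pi.smul_apply, res_apply, if_pos hxN, Pi.sub_apply, cv_of_notMem hxt, sub_zero,
      smul_eq_mul, Pi.zero_apply] at h1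
    exact (mul_eq_zero.1 h1).resolve_right (cv_pos hxs).ne'
  · intro s' _ hne
    have h2 : x ∉ s'.1 := hx s'.1 s'.2 fun h => hne (Subtype.ext h)
    simp only [Pi.smul_apply, res_apply, if_pos hxN, Pi.sub_apply, cv_of_notMem hxt, sub_zero,
      cv_of_notMem h2, smul_zero]
  · intro h
    exact absurd (Finset.mem_univ _) h

theorem fam_option {κ : Type} (v : κ → ℕ → ℚ) (u : ℕ → ℚ) (hv : LinearIndependent ℚ v)
    (φ : (ℕ → ℚ) →ₗ[ℚ] ℚ) (h1 : ∀ j, φ (v j) = 0) (h2 : φ u ≠ 0) :
    LinearIndependent ℚ (fun o : Option κ => o.elim u v) := by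
  rw [linearIndependent_option]
  refine ⟨hv, fun hmem => h2 ?_⟩
  have h3 : Submodule.span ℚ (Set.range ((fun o : Option κ => o.elim u v) ∘ some)) ≤
      LinearMap.ker φ := by
    rw [Submodule.span_le]
    rintro _ ⟨j, rfl⟩
    exact h1 j
  exact h3 hmem

/-- weighted sum over `N` -/
def wsum (N : Finset ℕ) : (ℕ → ℚ) →ₗ[ℚ] ℚ where
  toFun f := ∑ x ∈ N, f x * (x : ℚ)
  map_add' f g := by simp only [Pi.add_apply, add_mul, Finset.sum_add_distrib]
  map_smul' c f := by
    simp only [Pi.smul_apply, smul_eq_mul, mul_assoc, Finset.mul_sum, RingHom.id_apply]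

theorem wsum_res (N : Finset ℕ) (f : ℕ → ℚ) : wsum N (res N f) = ∑ x ∈ N, f x * (x : ℚ) := by
  change ∑ x ∈ N, res N f x * (x : ℚ) = _
  exact Finset.sum_congr rfl fun x hx => by rw [res_apply, if_pos hx]

theorem p_del : PropDel := by
  classical
  intro h A hh h0 hcl n r hr hdis hall
  choose z hz hdel using hall
  choose k F m hT hzF hmax using hdel
  let B : Fin (h + 2) → Finset ℕ := fun i => (F i).biUnion Multiset.toFinset
  let X : Finset (Fin (h + 2)) → Finset ℕ := fun I => I.biUnion fun i => B i ∪ (r i).toFinset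
  have hmemB : ∀ i x, x ∈ B i ↔ ∃ s ∈ F i, x ∈ s := by
    intro i x
    simp [B]
  have hmemX : ∀ I x, x ∈ X I ↔ ∃ i ∈ I, x ∈ B i ∨ x ∈ r i := by
    intro I x
    simp [X]
  have hXA : ∀ I, ∀ x ∈ X I, x ∈ A := by
    intro I x hx
    obtain ⟨i, _, h1 | h1⟩ := (hmemX I x).1 hx
    · obtain ⟨s, hs, hxs⟩ := (hmemB i x).1 h1
      exact (((hT i).2.2.2.1 s hs).1).2.1 x hxs
    · exact (hr i).2.1 x h1
  have hzB : ∀ i, z i ∈ B i := fun i => (hmemB i _).2 (hzF i)
  have hzne : ∀ i j, i ≠ j → z i ≠ z j := by
    intro i j hij h1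
    have h2 := hz j
    rw [← h1] at h2
    exact Multiset.disjoint_left.1 (hdis i j hij) (hz i) h2
  have hrel : ∀ i, (F i).card * (h + 1) = (F i).card * k i + (h + 1) := by
    intro i
    have h1 := (hT i).2.2.1
    have h2 := (hT i).2.1
    obtain ⟨c, hc⟩ := Nat.exists_eq_add_of_le h2
    have h3 : h + 1 - k i = c + 1 := by omega
    rw [h3] at h1
    have h4 : h + 1 = k i + (c + 1) := by omega
    calc (F i).card * (h + 1) = (F i).card * (k i + (c + 1)) := by rw [← h4]
      _ = (F i).card * k i + (F i).card * (c + 1) := by ring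
      _ = _ := by rw [h1]
  have hq1 : ∀ i, 1 ≤ (F i).card := by
    intro i
    obtain ⟨s, hs, _⟩ := hzF i
    exact Finset.card_pos.2 ⟨s, hs⟩
  have hcardle : ∀ i (K : Finset (Multiset ℕ)), K ⊆ F i →
      (K.biUnion Multiset.toFinset).card ≤ K.card * k i := by
    intro i K hK
    refine Finset.card_biUnion_le_card_mul _ _ _ fun s hs => ?_
    exact (Multiset.toFinset_card_le s).trans
      (((hT i).2.2.2.1 s (hK hs)).1).1.le
  have hBcard : ∀ i, (B i).card ≤ (F i).card * k i := fun i => hcardle i _ (Finset.Subset.refl _)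
  have hrer : ∀ i, ((r i).toFinset.erase (z i)).card ≤ h := by
    intro i
    have h1 : z i ∈ (r i).toFinset := Multiset.mem_toFinset.2 (hz i)
    rw [Finset.card_erase_of_mem h1]
    have h2 := (Multiset.toFinset_card_le (r i)).trans (hr i).1.le
    omega
  have hFsub : ∀ i, ∀ s ∈ F i, ∀ t ∈ F i, ∀ Y : Finset ℕ, B i ⊆ Y → cv s - cv t ∈ Eqs h Y := by
    intro i s hs t ht Y hY
    have h1 := ((hT i).2.2.2.1 s hs).1
    have h2 := ((hT i).2.2.2.1 t ht).1
    have h3 := (hT i).2.1
    refine eqs_sub (by rw [h1.1]; omega) (by rw [h2.1]; omega) (by rw [h1.2.2, h2.2.2]) ?_ ?_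
    · exact fun x hx => hY ((hmemB i x).2 ⟨s, hs, hx⟩)
    · exact fun x hx => hY ((hmemB i x).2 ⟨t, ht, hx⟩)
  have hFd : ∀ i, ∀ s ∈ F i, ∀ t ∈ F i, s ≠ t → ∀ x ∈ s, x ∉ t := by
    intro i s hs t ht hst x hxs hxt
    exact Multiset.disjoint_left.1 ((hT i).2.2.2.2 s hs t ht hst) hxs hxt
  have key : ∀ I : Finset (Fin (h + 2)), I.Nonempty → ∃ d, Ind h (X I) d ∧
      (X I).card + I.card ≤ (h + 1) * d + h + 1 := by
    intro I
    induction I using Finset.induction_on_max_value z with
    | empty => intro h; exact absurd h (by simp)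
    | insert a I ha hle ih =>
      intro _
      have hXins : X (insert a I) = X I ∪ (B a ∪ (r a).toFinset) := by
        ext x
        simp only [X, Finset.biUnion_insert, Finset.mem_union]
        tauto
      have hBX : B a ⊆ X (insert a I) := by
        rw [hXins]
        intro x hx
        simp [hx]
      obtain ⟨t0, ht0, hzt0⟩ := hzF a
      rcases I.eq_empty_or_nonempty with rfl | ⟨i0, hi0⟩
      · -- one element
        have h1 : Ind h (∅ : Finset ℕ) 0 :=
          ⟨Empty, inferInstance, fun e => e.elim, rfl, fun e => e.elim, linearIndependent_empty_type⟩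
        have h2 := ind_step (X' := X (insert a ∅)) (N := X (insert a ∅)) h1
          (Finset.empty_subset _) (by simp) (κ := ((F a).erase t0 : Finset (Multiset ℕ)))
          (fun s => cv s.1 - cv t0)
          (fun s => hFsub a s.1 (Finset.mem_of_mem_erase s.2) t0 ht0 _ hBX)
          (fam _ t0 (by
            intro s hs
            rw [Finset.mem_erase] at hs
            have h3 := ((hT a).2.2.2.1 s hs.2).1.1
            have h4 := (hT a).1
            obtain ⟨x, hx⟩ := Multiset.card_pos_iff_exists_mem.1 (by omega : 0 < Multiset.card s)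
            refine ⟨x, hBX ((hmemB a x).2 ⟨s, hs.2, hx⟩), hx, hFd a s hs.2 t0 ht0 hs.1 x hx, ?_⟩
            intro s' hs' hne
            rw [Finset.mem_erase] at hs'
            exact hFd a s hs.2 s' hs'.2 (Ne.symm hne) x hx))
        refine ⟨_, h2, ?_⟩
        rw [Fintype.card_coe, Finset.card_erase_of_mem ht0, zero_add]
        have h5 : X (insert a ∅) ⊆ B a ∪ (r a).toFinset.erase (z a) := by
          intro x hx
          rw [hXins] at hx
          rw [Finset.mem_union, Finset.mem_erase]
          by_cases hxB : x ∈ B a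
          · exact Or.inl hxB
          · right
            simp only [X, Finset.biUnion_empty, Finset.empty_union, Finset.mem_union] at hx
            refine ⟨?_, hx.resolve_left hxB⟩
            rintro rfl
            exact hxB (hzB a)
        have h6 := (Finset.card_le_card h5).trans (Finset.card_union_le _ _)
        have h7 := hBcard a
        have h8 := hrer a
        have h9 := hrel a
        have h10 := hq1 a
        obtain ⟨q, hq⟩ : ∃ q, (F a).card = q + 1 := ⟨(F a).card - 1, by omega⟩
        rw [hq] at h7 h9 ⊢
        simp only [Finset.card_insert_of_notMem (Finset.notMem_empty a), Finset.card_empty,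
          Nat.add_sub_cancel]
        nlinarith
      · obtain ⟨d, hd, hdle⟩ := ih ⟨i0, hi0⟩
        have hai0 : a ≠ i0 := fun h => ha (h ▸ hi0)
        let N : Finset ℕ := X (insert a I) \ X I
        have hNX : ∀ x ∈ N, x ∉ X I := fun x hx => (Finset.mem_sdiff.1 hx).2
        have hXX : X I ⊆ X (insert a I) := by
          rw [hXins]
          exact Finset.subset_union_left
        have hNmem : ∀ x, x ∈ N ↔ (x ∈ B a ∨ x ∈ r a) ∧ x ∉ X I := by
          intro x
          rw [Finset.mem_sdiff, hXins]
          simp only [Finset.mem_union, Multiset.mem_toFinset]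
          tauto
        have hcardN : (X (insert a I)).card = (X I).card + N.card := by
          have := Finset.card_sdiff_add_card_eq_card hXX
          change N.card + _ = _ at this
          omega
        have hcardI : (insert a I).card = I.card + 1 := Finset.card_insert_of_notMem ha
        have hzX : z a ∉ X I := by
          intro h1
          obtain ⟨i, hi, h2 | h2⟩ := (hmemX I _).1 h1
          · obtain ⟨s, hs, hxs⟩ := (hmemB i _).1 h2
            have h3 := hmax i s hs _ hxs
            have h4 := hle i hi
            exact hzne a i (fun h => ha (h ▸ hi)) (le_antisymm h3 h4)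
          · exact Multiset.disjoint_left.1 (hdis a i (fun h => ha (h ▸ hi))) (hz a) h2
        have hzN : z a ∈ N := (hNmem _).2 ⟨Or.inl (hzB a), hzX⟩
        -- the second equation
        have hu : cv (r a) - cv (r i0) ∈ Eqs h (X (insert a I)) := by
          refine eqs_sub (hr a).1.le (hr i0).1.le (by rw [(hr a).2.2, (hr i0).2.2]) ?_ ?_
          · exact fun x hx => (hmemX _ _).2 ⟨a, Finset.mem_insert_self _ _, Or.inr hx⟩
          · exact fun x hx => (hmemX _ _).2 ⟨i0, Finset.mem_insert_of_mem hi0, Or.inr hx⟩
        have hri0 : ∀ x ∈ N, x ∉ r i0 := fun x hx h1 =>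
          hNX x hx ((hmemX _ _).2 ⟨i0, hi0, Or.inr h1⟩)
        let K' : Finset (Multiset ℕ) := (F a).filter fun s => ∃ x ∈ N, x ∈ s
        have hK'F : K' ⊆ F a := Finset.filter_subset _ _
        have hNsub : N ⊆ K'.biUnion Multiset.toFinset ∪ (r a).toFinset.erase (z a) := by
          intro x hx
          rw [Finset.mem_union, Finset.mem_erase]
          by_cases hxB : x ∈ B a
          · left
            obtain ⟨s, hs, hxs⟩ := (hmemB a x).1 hxB
            rw [Finset.mem_biUnion]
            exact ⟨s, Finset.mem_filter.2 ⟨hs, x, hx, hxs⟩, Multiset.mem_toFinset.2 hxs⟩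
          · right
            refine ⟨?_, Multiset.mem_toFinset.2 (((hNmem x).1 hx).1.resolve_left hxB)⟩
            rintro rfl
            exact hxB (hzB a)
        have hNsub2 : (∀ x ∈ r a, x ∈ X I ∨ x ∈ B a) → N ⊆ K'.biUnion Multiset.toFinset := by
          intro hall x hx
          have hxB : x ∈ B a := by
            rcases ((hNmem x).1 hx).1 with h1 | h1
            · exact h1
            · exact (hall x h1).resolve_left (hNX x hx)
          obtain ⟨s, hs, hxs⟩ := (hmemB a x).1 hxB
          rw [Finset.mem_biUnion]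
          exact ⟨s, Finset.mem_filter.2 ⟨hs, x, hx, hxs⟩, Multiset.mem_toFinset.2 hxs⟩
        have hK'card : 1 ≤ K'.card :=
          Finset.card_pos.2 ⟨t0, Finset.mem_filter.2 ⟨ht0, z a, hzN, hzt0⟩⟩
        have hcK' := hcardle a K' hK'F
        have hkh := (hT a).2.1
        have hrela := hrel a
        have hrera := hrer a
        have hfam : ∀ (K : Finset (Multiset ℕ)) (t : Multiset ℕ), K ⊆ K' → t ∈ F a → t ∉ K →
            LinearIndependent ℚ (fun s : K => res N (cv s.1 - cv t)) := by
          intro K t hK ht htK
          refine fam K t fun s hs => ?_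
          obtain ⟨hsF, x, hxN, hxs⟩ := Finset.mem_filter.1 (hK hs)
          refine ⟨x, hxN, hxs, hFd a s hsF t ht (fun h => htK (h ▸ hs)) x hxs, ?_⟩
          intro s' hs' hne
          exact hFd a s hsF s' (hK'F (hK hs')) (Ne.symm hne) x hxs
        -- the step without the second equation
        have st1 : ∀ (K : Finset (Multiset ℕ)) (t : Multiset ℕ), K ⊆ K' → t ∈ F a → t ∉ K →
            N.card + 1 ≤ (h + 1) * K.card → ∃ d, Ind h (X (insert a I)) d ∧
              (X (insert a I)).card + (insert a I).card ≤ (h + 1) * d + h + 1 := by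
          intro K t hK ht htK hle
          have h1 := ind_step (X' := X (insert a I)) hd hXX hNX (κ := K)
            (fun s => cv s.1 - cv t) (fun s => hFsub a s.1 (hK'F (hK s.2)) t ht _ hBX)
            (hfam K t hK ht htK)
          refine ⟨_, h1, ?_⟩
          rw [Fintype.card_coe, hcardN, hcardI]
          nlinarith
        -- the step with the second equation
        have st2 : ∀ (K : Finset (Multiset ℕ)) (t : Multiset ℕ), K ⊆ K' → t ∈ F a → t ∉ K →
            ∀ φ : (ℕ → ℚ) →ₗ[ℚ] ℚ, (∀ s ∈ K, φ (res N (cv s - cv t)) = 0) →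
            φ (res N (cv (r a) - cv (r i0))) ≠ 0 →
            N.card + 1 ≤ (h + 1) * (K.card + 1) → ∃ d, Ind h (X (insert a I)) d ∧
              (X (insert a I)).card + (insert a I).card ≤ (h + 1) * d + h + 1 := by
          intro K t hK ht htK φ hφ1 hφ2 hle
          have h1 := ind_step (X' := X (insert a I)) hd hXX hNX (κ := Option K)
            (fun o => o.elim (cv (r a) - cv (r i0)) (fun s => cv s.1 - cv t))
            (by
              rintro (_ | s)
              · exact hu
              · exact hFsub a s.1 (hK'F (hK s.2)) t ht _ hBX)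
            (by
              have h2 := fam_option (fun s : K => res N (cv s.1 - cv t))
                (res N (cv (r a) - cv (r i0))) (hfam K t hK ht htK) φ (fun s => hφ1 s.1 s.2) hφ2
              convert h2 using 1
              funext o
              cases o <;> rfl)
          refine ⟨_, h1, ?_⟩
          rw [Fintype.card_option, Fintype.card_coe, hcardN, hcardI]
          nlinarith
        -- evaluation at a point outside of `B a`
        have hev : ∀ x0 ∈ r a, ¬ (x0 ∈ X I ∨ x0 ∈ B a) → ∀ (K : Finset (Multiset ℕ))
            (t : Multiset ℕ), K ⊆ K' → t ∈ F a →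
            (∀ s ∈ K, (LinearMap.proj x0 : (ℕ → ℚ) →ₗ[ℚ] ℚ) (res N (cv s - cv t)) = 0) ∧
            (LinearMap.proj x0 : (ℕ → ℚ) →ₗ[ℚ] ℚ) (res N (cv (r a) - cv (r i0))) ≠ 0 := by
          intro x0 hx0 hx1 K t hK ht
          rw [not_or] at hx1
          have hxN : x0 ∈ N := (hNmem x0).2 ⟨Or.inr hx0, hx1.1⟩
          constructor
          · intro s hs
            rw [LinearMap.proj_apply, res_apply, if_pos hxN, Pi.sub_apply,
              cv_of_notMem fun h1 => hx1.2 ((hmemB a x0).2 ⟨s, hK'F (hK hs), h1⟩),
              cv_of_notMem fun h1 => hx1.2 ((hmemB a x0).2 ⟨t, ht, h1⟩), sub_zero]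
          · rw [LinearMap.proj_apply, res_apply, if_pos hxN, Pi.sub_apply,
              cv_of_notMem (hri0 x0 hxN), sub_zero]
            exact (cv_pos hx0).ne'
        by_cases hall : ∀ x ∈ r a, x ∈ X I ∨ x ∈ B a
        · have hNle := (Finset.card_le_card (hNsub2 hall)).trans hcK'
          by_cases hKF : ∃ t ∈ F a, t ∉ K'
          · obtain ⟨t, ht, htK⟩ := hKF
            refine st1 K' t (Finset.Subset.refl _) ht htK ?_
            have h1 : K'.card * k a ≤ K'.card * h := Nat.mul_le_mul_left _ hkh
            nlinarith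
          · have hKF' : K' = F a := by
              apply Finset.Subset.antisymm hK'F
              intro s hs
              by_contra h1
              exact hKF ⟨s, hs, h1⟩
            obtain ⟨q, hq⟩ : ∃ q, (F a).card = q + 1 := ⟨(F a).card - 1, by have := hq1 a; omega⟩
            have hKe : ((F a).erase t0).card = q := by
              rw [Finset.card_erase_of_mem ht0]
              omega
            have hKe' : (F a).erase t0 ⊆ K' := by
              rw [hKF']
              exact Finset.erase_subset _ _
            rw [hKF'] at hNle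
            rw [hq] at hNle hrela
            by_cases hmeet : ∃ x ∈ B a, x ∈ X I
            · obtain ⟨x1, hx1, hx1X⟩ := hmeet
              refine st1 ((F a).erase t0) t0 hKe' ht0 (Finset.notMem_erase _ _) ?_
              have h1 : N ⊆ (B a).erase x1 := by
                intro x hx
                rw [Finset.mem_erase]
                refine ⟨fun h => hNX x hx (h ▸ hx1X), ?_⟩
                rcases ((hNmem x).1 hx).1 with h2 | h2
                · exact h2
                · exact (hall x h2).resolve_left (hNX x hx)
              have h2 := Finset.card_le_card h1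
              rw [Finset.card_erase_of_mem hx1] at h2
              have h3 := hBcard a
              have h4 : 0 < (B a).card := Finset.card_pos.2 ⟨x1, hx1⟩
              rw [hq] at h3
              rw [hKe]
              have h5 : N.card + 1 ≤ (q + 1) * k a := by omega
              nlinarith
            · have hNB : N = B a := by
                ext x
                rw [hNmem]
                constructor
                · rintro ⟨h1 | h1, h2⟩
                  · exact h1
                  · exact (hall x h1).resolve_left h2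
                · intro h1
                  exact ⟨Or.inl h1, fun h2 => hmeet ⟨x, h1, h2⟩⟩
              refine st2 ((F a).erase t0) t0 hKe' ht0 (Finset.notMem_erase _ _) (wsum N) ?_ ?_ ?_
              · intro s hs
                have hsF := Finset.mem_of_mem_erase hs
                have h1 := hFsub a s hsF t0 ht0 N (by rw [hNB])
                rw [wsum_res]
                exact h1.2.2
              · rw [wsum_res]
                have h1 : 0 < ∑ x ∈ N, (cv (r a) - cv (r i0)) x * (x : ℚ) := by
                  refine Finset.sum_pos' (fun x hx => ?_) ⟨z a, hzN, ?_⟩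
                  · rw [Pi.sub_apply, cv_of_notMem (hri0 x hx), sub_zero]
                    exact mul_nonneg (cv_nonneg _ _) (Nat.cast_nonneg _)
                  · rw [Pi.sub_apply, cv_of_notMem (hri0 _ hzN), sub_zero]
                    refine mul_pos (cv_pos (hz a)) ?_
                    have h2 : z a ≠ 0 := by
                      intro h3
                      apply h0
                      rw [← h3]
                      exact (hr a).2.1 _ (hz a)
                    have h4 : 0 < z a := Nat.pos_of_ne_zero h2
                    exact_mod_cast h4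
                exact h1.ne'
              · rw [hKe]
                nlinarith
        · push_neg at hall
          obtain ⟨x0, hx0, hx1⟩ := hall
          have hx1' : ¬ (x0 ∈ X I ∨ x0 ∈ B a) := by
            rw [not_or]
            exact hx1
          have hNle := (Finset.card_le_card hNsub).trans ((Finset.card_union_le _ _).trans
            (Nat.add_le_add hcK' hrera))
          by_cases hKF : ∃ t ∈ F a, t ∉ K'
          · obtain ⟨t, ht, htK⟩ := hKF
            obtain ⟨e1, e2⟩ := hev x0 hx0 hx1' K' t (Finset.Subset.refl _) ht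
            refine st2 K' t (Finset.Subset.refl _) ht htK _ e1 e2 ?_
            have h1 : K'.card * k a ≤ K'.card * h := Nat.mul_le_mul_left _ hkh
            nlinarith
          · have hKF' : K' = F a := by
              apply Finset.Subset.antisymm hK'F
              intro s hs
              by_contra h1
              exact hKF ⟨s, hs, h1⟩
            obtain ⟨q, hq⟩ : ∃ q, (F a).card = q + 1 := ⟨(F a).card - 1, by have := hq1 a; omega⟩
            have hKe : ((F a).erase t0).card = q := by
              rw [Finset.card_erase_of_mem ht0]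
              omega
            have hKe' : (F a).erase t0 ⊆ K' := by
              rw [hKF']
              exact Finset.erase_subset _ _
            rw [hKF', hq] at hNle
            rw [hq] at hrela
            obtain ⟨e1, e2⟩ := hev x0 hx0 hx1' ((F a).erase t0) t0 hKe' ht0
            refine st2 ((F a).erase t0) t0 hKe' ht0 (Finset.notMem_erase _ _) _ e1 e2 ?_
            rw [hKe]
            nlinarith
  obtain ⟨d, hd, hdle⟩ := key Finset.univ ⟨0, Finset.mem_univ _⟩
  have hcard : (X Finset.univ).card ≤ V h := by
    have h1 : (X Finset.univ).card ≤ (Finset.univ : Finset (Fin (h + 2))).card *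
        (h * (h + 1) + (h + 1)) := by
      refine Finset.card_biUnion_le_card_mul _ _ _ fun i _ => ?_
      refine (Finset.card_union_le _ _).trans (Nat.add_le_add ?_ ?_)
      · refine (hBcard i).trans ?_
        have h2 := (hT i).2.1
        have h3 : (F i).card ≤ h + 1 := by
          have h4 := (hT i).2.2.1
          have h5 : 1 ≤ h + 1 - k i := by omega
          calc (F i).card = (F i).card * 1 := (mul_one _).symm
            _ ≤ (F i).card * (h + 1 - k i) := Nat.mul_le_mul_left _ h5
            _ = h + 1 := h4
        calc (F i).card * k i ≤ (h + 1) * h := Nat.mul_le_mul h3 h2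
          _ = h * (h + 1) := mul_comm _ _
      · exact (Multiset.toFinset_card_le _).trans (hr i).1.le
    rw [Finset.card_univ, Fintype.card_fin] at h1
    refine h1.trans ?_
    unfold V
    nlinarith [Nat.zero_le h, Nat.zero_le (h * h), Nat.zero_le (h * h * h)]
  have h1 := clean_ind hcl (hXA _) hcard hd
  rw [Finset.card_univ, Fintype.card_fin] at hdle
  omega

end Pool.Agent.W2helper69.BH
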